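import Mathlib

set_option autoImplicit false

/-!
# MP_b2f6ce_nt: the lower bound `a_n ≥ ⌊log n⌋ - 1` fails for `n = 99577`

For `n = 99577` there are exactly eight triples `(a, q, p)`, so `a_n = 9`, while `⌊log n⌋ = 11`.

The solutions are found by splitting into the cases `p ≤ 50` (then one of `q` and
`a (2 p + 1) + 1`, whose product is `n - p`, is at most `316`) and `p > 50` (then `q a ≤ 966`
because `(2 p + 1) (2 q a + 1) + 2 q = 2 n + 1`).
-/

namespace Pool.Agent.Results.MP_b2f6ce_nt.LogBoundFails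

/-- The set of the triples `(a, q, p)` of integers with `a ≥ 1`, `q ≥ 1`, `p ≥ 0` and
`n = 2 p q a + a q + q + p`. -/
def Sol (n : ℕ) : Set (ℕ × ℕ × ℕ) :=
  {t | 1 ≤ t.1 ∧ 1 ≤ t.2.1 ∧ n = 2 * t.2.2 * t.2.1 * t.1 + t.1 * t.2.1 + t.2.1 + t.2.2}

/-- `N n` is the number of the triples. -/
noncomputable def N (n : ℕ) : ℕ := (Sol n).ncard

/-- `a_n = N(n) + 1`. -/
noncomputable def a (n : ℕ) : ℕ := N n + 1

/-- The eight triples for `n = 99577`. -/
def L : Finset (ℕ × ℕ × ℕ) :=
  {(99576, 1, 0), (1, 24894, 1), (307, 108, 1), (1229, 27, 1), (655, 8, 9), (4, 314, 39),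
    (17, 30, 97), (9, 6, 913)}

theorem case1b : (List.range 51).all (fun p => (List.range 317).all (fun q =>
    !(decide (1 ≤ q)) || !(decide ((99577 - p) % q = 0)) ||
    !(decide (((99577 - p) / q - 1) % (2 * p + 1) = 0)) ||
    !(decide (1 ≤ ((99577 - p) / q - 1) / (2 * p + 1))) ||
    decide ((((99577 - p) / q - 1) / (2 * p + 1), q, p) ∈ L))) = true := by
  decide +kernel

theorem case2b : (List.range 51).all (fun p => (List.range 317).all (fun a =>
    !(decide (1 ≤ a)) || !(decide ((99577 - p) % (a * (2 * p + 1) + 1) = 0)) ||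
    decide ((a, (99577 - p) / (a * (2 * p + 1) + 1), p) ∈ L))) = true := by
  decide +kernel

theorem case3b : (List.range 967).all (fun q => (List.range (966 / q + 1)).all (fun a =>
    !(decide (1 ≤ q)) || !(decide (1 ≤ a)) ||
    !(decide ((99577 - q * (a + 1)) % (2 * q * a + 1) = 0)) ||
    !(decide (51 ≤ (99577 - q * (a + 1)) / (2 * q * a + 1))) ||
    decide ((a, q, (99577 - q * (a + 1)) / (2 * q * a + 1)) ∈ L))) = true := by
  decide +kernel

theorem case1 (p : ℕ) (hp : p < 51) (q : ℕ) (hq : q < 317) (h1 : 1 ≤ q)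
    (h2 : (99577 - p) % q = 0) (h3 : ((99577 - p) / q - 1) % (2 * p + 1) = 0)
    (h4 : 1 ≤ ((99577 - p) / q - 1) / (2 * p + 1)) :
    (((99577 - p) / q - 1) / (2 * p + 1), q, p) ∈ L := by
  have h := List.all_eq_true.1 case1b p (List.mem_range.2 hp)
  have h' := List.all_eq_true.1 h q (List.mem_range.2 hq)
  simpa [h1, h2, h3, h4] using h'

theorem case2 (p : ℕ) (hp : p < 51) (a : ℕ) (ha : a < 317) (h1 : 1 ≤ a)
    (h2 : (99577 - p) % (a * (2 * p + 1) + 1) = 0) :
    (a, (99577 - p) / (a * (2 * p + 1) + 1), p) ∈ L := by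
  have h := List.all_eq_true.1 case2b p (List.mem_range.2 hp)
  have h' := List.all_eq_true.1 h a (List.mem_range.2 ha)
  simpa [h1, h2] using h'

theorem case3 (q : ℕ) (hq : q < 967) (h1 : 1 ≤ q) (a : ℕ) (ha : a < 966 / q + 1) (h2 : 1 ≤ a)
    (h3 : (99577 - q * (a + 1)) % (2 * q * a + 1) = 0)
    (h4 : 51 ≤ (99577 - q * (a + 1)) / (2 * q * a + 1)) :
    (a, q, (99577 - q * (a + 1)) / (2 * q * a + 1)) ∈ L := by
  have h := List.all_eq_true.1 case3b q (List.mem_range.2 hq)
  have h' := List.all_eq_true.1 h a (List.mem_range.2 ha)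
  simpa [h1, h2, h3, h4] using h'

theorem sol_subset (t : ℕ × ℕ × ℕ) (ht : t ∈ Sol 99577) : t ∈ L := by
  obtain ⟨a, q, p⟩ := t
  obtain ⟨ha, hq, h⟩ := ht
  simp only at ha hq h
  have hprod : 99577 - p = q * (a * (2 * p + 1) + 1) := by
    have : 2 * p * q * a + a * q + q + p = q * (a * (2 * p + 1) + 1) + p := by ring
    omega
  rcases Nat.lt_or_ge p 51 with hp | hp
  · rcases Nat.lt_or_ge q 317 with hq2 | hq2
    · have hdiv : (99577 - p) / q = a * (2 * p + 1) + 1 := by
        rw [hprod]; exact Nat.mul_div_cancel_left _ (by omega)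
      have := case1 p hp q hq2 hq (by rw [hprod]; exact Nat.mul_mod_right _ _)
        (by rw [hdiv, Nat.add_sub_cancel]; exact Nat.mul_mod_left _ _)
        (by rw [hdiv, Nat.add_sub_cancel, Nat.mul_div_cancel _ (by omega)]; exact ha)
      rw [hdiv, Nat.add_sub_cancel, Nat.mul_div_cancel _ (by omega)] at this
      exact this
    · have ha2 : a < 317 := by
        by_contra hcon
        have h1 : 317 ≤ a * (2 * p + 1) + 1 := by nlinarith
        have h2 : 317 * 317 ≤ q * (a * (2 * p + 1) + 1) := Nat.mul_le_mul hq2 h1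
        omega
      have hdiv : (99577 - p) / (a * (2 * p + 1) + 1) = q := by
        rw [hprod]; exact Nat.mul_div_cancel _ (by omega)
      have := case2 p hp a ha2 ha (by rw [hprod]; exact Nat.mul_mod_left _ _)
      rw [hdiv] at this
      exact this
  · have h3 : (2 * p + 1) * (2 * q * a + 1) + 2 * q = 199155 := by
      have : (2 * p + 1) * (2 * q * a + 1) + 2 * q =
        2 * (2 * p * q * a + a * q + q + p) + 1 := by ring
      rw [this, ← h]
    have h4 : 2 * q * a + 1 ≤ 1933 := by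
      by_contra hcon
      have h5 : 1934 ≤ 2 * q * a + 1 := by omega
      have h6 : 103 * 1934 ≤ (2 * p + 1) * (2 * q * a + 1) := Nat.mul_le_mul (by omega) h5
      omega
    have h5 : q * a ≤ 966 := by
      have : 2 * q * a = 2 * (q * a) := by ring
      omega
    have hq3 : q < 967 := by nlinarith
    have ha3 : a < 966 / q + 1 := by
      have : a ≤ 966 / q := (Nat.le_div_iff_mul_le (by omega)).2 (by rw [Nat.mul_comm]; exact h5)
      omega
    have h6 : 99577 - q * (a + 1) = p * (2 * q * a + 1) := by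
      have : 2 * p * q * a + a * q + q + p = p * (2 * q * a + 1) + q * (a + 1) := by ring
      omega
    have hdiv : (99577 - q * (a + 1)) / (2 * q * a + 1) = p := by
      rw [h6]; exact Nat.mul_div_cancel _ (by omega)
    have := case3 q hq3 hq a ha3 ha (by rw [h6]; exact Nat.mul_mod_left _ _) (by rw [hdiv]; exact hp)
    rw [hdiv] at this
    exact this

theorem sol_eq : Sol 99577 = ↑L := by
  ext t
  constructor
  · exact fun h => sol_subset t h
  · intro h
    have h' : t ∈ L := h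
    simp only [L, Finset.mem_insert, Finset.mem_singleton] at h'
    rcases h' with rfl | rfl | rfl | rfl | rfl | rfl | rfl | rfl <;> simp [Sol]

theorem a_99577 : a 99577 = 9 := by
  unfold a N
  rw [sol_eq, Set.ncard_coe_finset]
  rfl

theorem floor_log : (11 : ℤ) ≤ ⌊Real.log (99577 : ℕ)⌋ := by
  rw [Int.le_floor]
  push_cast
  rw [Real.le_log_iff_exp_le (by norm_num)]
  have h1 : Real.exp 11 = Real.exp 1 ^ 11 := by
    rw [← Real.exp_nat_mul]; norm_num
  have h2 := Real.exp_one_lt_d9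
  have h3 : Real.exp 1 ^ 11 ≤ (2.7182818286 : ℝ) ^ 11 :=
    pow_le_pow_left₀ (Real.exp_pos 1).le h2.le 11
  rw [h1]
  refine h3.trans ?_
  norm_num

/-- **Q2 is false**: `a_n ≤ ⌊log n⌋ - 2` for some `n ≥ 1` (namely `n = 99577`, `a_n = 9`,
`⌊log n⌋ = 11`). -/
theorem result : ∃ n : ℕ, 1 ≤ n ∧ (a n : ℤ) ≤ ⌊Real.log n⌋ - 2 := by
  refine ⟨99577, by norm_num, ?_⟩
  rw [a_99577]
  have := floor_log
  push_cast at this ⊢
  omega

end Pool.Agent.Results.MP_b2f6ce_nt.LogBoundFails
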